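import Pool.Agent.Y160.SH.Sha
import Pool.Agent.TH115.TC.TwMain

/-!
Cocycles with values in the Tate module over `K` and over a normal extension `F`.
-/

set_option autoImplicit false
set_option linter.all false

open Polynomial IsDedekindDomain
open scoped Classical

namespace Pool.Agent.Q126.SB

open Pool.Agent.TH115.GD
open Pool.Agent.Y160.SH (cj cj_mul cont_cj)

theorem pow_kill {K₀ Ω G : Type} [Field K₀] [Field Ω] [Algebra K₀ Ω] {W : WeierstrassCurve K₀}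
    {c : ℕ → G → Pt W Ω} (h0 : ∀ σ, c 0 σ = 0) (h2 : ∀ n σ, 2 • c (n + 1) σ = c n σ) (n : ℕ)
    (σ : G) : 2 ^ n • c n σ = 0 := by
  induction n with
  | zero => rw [pow_zero, one_smul, h0]
  | succ n ih => rw [pow_succ, mul_smul, h2, ih]

theorem act_id' {K Ω : Type} [Field K] [Field Ω] [Algebra K Ω] {W : WeierstrassCurve K}
    (P : Pt W Ω) : act W (AlgHom.id K Ω) P = P :=
  WeierstrassCurve.Affine.Point.map_id P

section

variable {K F Ω Ω' : Type} [Field K] [Field F] [Field Ω] [Field Ω'] [Algebra K F] [Algebra K Ω]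
  [Algebra K Ω'] [Algebra F Ω'] [IsScalarTower K F Ω'] [IsGalois K Ω] [IsGalois K Ω']
  [IsGalois F Ω'] (W : WeierstrassCurve K) (j : Ω ≃ₐ[K] Ω')

/-- the homomorphism of the Galois groups -/
def cF (σ : Ω' ≃ₐ[F] Ω') : Ω ≃ₐ[K] Ω := cj j (σ.restrictScalars K)

/-- the restriction of a cocycle over `K` to `F` -/
noncomputable def resG (c : (Ω ≃ₐ[K] Ω) → Pt W Ω) (σ : Ω' ≃ₐ[F] Ω') : Pt W Ω' :=
  act W (j : Ω →ₐ[K] Ω') (c (cF j σ))

omit [IsGalois K Ω] [IsGalois K Ω'] [IsGalois F Ω'] in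
theorem cF_mul (σ τ : Ω' ≃ₐ[F] Ω') : cF (K := K) j (σ * τ) = cF j σ * cF j τ := by
  apply AlgEquiv.ext
  intro x
  show j.symm (σ (τ (j x))) = j.symm (σ (j (j.symm (τ (j x)))))
  rw [AlgEquiv.apply_symm_apply]

omit [IsGalois K Ω] [IsGalois K Ω'] in
theorem hJc (τ : Ω' ≃ₐ[K] Ω') :
    (j : Ω →ₐ[K] Ω').comp (rs K (cj j τ)) = (ak τ).comp (j : Ω →ₐ[K] Ω') := by
  refine AlgHom.ext fun x => ?_
  show j (j.symm (τ (j x))) = τ (j x)
  rw [AlgEquiv.apply_symm_apply]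

omit [IsGalois K Ω] [IsGalois K Ω'] [IsGalois F Ω'] in
theorem hJF (σ : Ω' ≃ₐ[F] Ω') :
    (j : Ω →ₐ[K] Ω').comp (rs K (cF j σ)) = (rs K σ).comp (j : Ω →ₐ[K] Ω') :=
  hJc j (σ.restrictScalars K)

theorem res_tc {c : ℕ → (Ω ≃ₐ[K] Ω) → Pt W Ω} (hc : IsTC W c) :
    IsTC (F := F) W (fun n => resG W j (c n)) := by
  refine ⟨fun n => ⟨?_, fun σ τ => ?_⟩, fun σ => ?_, fun n σ => ?_⟩
  · have h1 : Continuous (cF (F := F) j) := (cont_cj j).comp cont_rs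
    exact ((hc.coc n).lc.comp_continuous h1).comp _
  · show act W _ (c n (cF j (σ * τ))) = act W _ (c n (cF j σ)) + act W _ (act W _ (c n (cF j τ)))
    rw [cF_mul, (hc.coc n).mul, map_add, act_act, hJF, ← act_act]
  · show act W _ (c 0 (cF j σ)) = 0
    rw [hc.zero, map_zero]
  · show 2 • act W _ (c (n + 1) (cF j σ)) = act W _ (c n (cF j σ))
    rw [← map_nsmul, hc.two]

omit [IsGalois K Ω] [IsGalois K Ω'] [IsGalois F Ω'] in
theorem res_inv {c : ℕ → (Ω ≃ₐ[K] Ω) → Pt W Ω} (hc : IsTC W c) :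
    IsInv (F := F) W (fun n => resG W j (c n)) := by
  intro τ
  refine ⟨0, fun n => act W (j : Ω →ₐ[K] Ω') (c n (cj j τ)), ⟨?_, fun n => ?_⟩,
    fun n σ σ' hσ => ?_⟩
  · show act W _ (c 0 (cj j τ)) = 0
    rw [hc.zero, map_zero]
  · show 2 • act W _ (c (n + 1) (cj j τ)) = act W _ (c n (cj j τ))
    rw [← map_nsmul, hc.two]
  · rw [pow_zero, one_smul]
    have e1 : cj j τ * cF j σ' = cF j σ * cj j τ := by
      apply AlgEquiv.ext
      intro x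
      show j.symm (τ (j (j.symm (σ' (j x))))) = j.symm (σ (j (j.symm (τ (j x)))))
      rw [AlgEquiv.apply_symm_apply, AlgEquiv.apply_symm_apply, hσ]
    have e2 := (hc.coc n).mul (cj j τ) (cF j σ')
    rw [e1, (hc.coc n).mul] at e2
    have e3 := congrArg (act W (j : Ω →ₐ[K] Ω')) e2
    rw [map_add, map_add, act_act, act_act, hJF, hJc, ← act_act, ← act_act] at e3
    show act W (ak τ) (act W (j : Ω →ₐ[K] Ω') (c n (cF j σ'))) -
        act W (j : Ω →ₐ[K] Ω') (c n (cF j σ)) =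
      act W (rs K σ) (act W (j : Ω →ₐ[K] Ω') (c n (cj j τ))) -
        act W (j : Ω →ₐ[K] Ω') (c n (cj j τ))
    rw [sub_eq_sub_iff_add_eq_add, add_comm, ← e3, add_comm]

/-- **Back to `K`.** -/
theorem back [IsSepClosed Ω'] (hN : Preserves K F Ω')
    (htor : ∀ (n : ℕ) (R : Pt W Ω'), 2 ^ n • R = 0 →
      (∀ σ : Ω' ≃ₐ[F] Ω', act W (rs K σ) R = R) → R = 0)
    {c : ℕ → (Ω ≃ₐ[K] Ω) → Pt W Ω} (hc : IsTC W c) (n : ℕ) {P : Pt W K} {R : Pt W Ω'}
    (hR1 : 2 ^ n • R = act W (incl K K Ω') P)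
    (hR2 : ∀ σ : Ω' ≃ₐ[F] Ω', resG W j (c n) σ = act W (rs K σ) R - R) :
    ∃ R₀ : Pt W Ω, 2 ^ n • R₀ = act W (incl K K Ω) P ∧
      ∀ σ : Ω ≃ₐ[K] Ω, c n σ = act W (rs K σ) R₀ - R₀ := by
  have hJJ' : (j.symm : Ω' →ₐ[K] Ω).comp (j : Ω →ₐ[K] Ω') = AlgHom.id K _ :=
    AlgHom.ext fun x => j.symm_apply_apply x
  have hJ'J : (j : Ω →ₐ[K] Ω').comp (j.symm : Ω' →ₐ[K] Ω) = AlgHom.id K _ :=
    AlgHom.ext fun x => j.apply_symm_apply x
  have hP : act W (j.symm : Ω' →ₐ[K] Ω) (act W (incl K K Ω') P) = act W (incl K K Ω) P := by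
    have e : (j.symm : Ω' →ₐ[K] Ω).comp (incl K K Ω') = incl K K Ω :=
      AlgHom.ext fun x => j.symm.commutes x
    rw [act_act, e]
  obtain ⟨R₀, hR₀⟩ : ∃ R₀, R₀ = act W (j.symm : Ω' →ₐ[K] Ω) R := ⟨_, rfl⟩
  have hJR : act W (j : Ω →ₐ[K] Ω') R₀ = R := by
    rw [hR₀, act_act, hJ'J, act_id']
  have hinj : Function.Injective (act W (j : Ω →ₐ[K] Ω')) := by
    intro x y hxy
    have h1 := congrArg (act W (j.symm : Ω' →ₐ[K] Ω)) hxy
    rwa [act_act, act_act, hJJ', act_id', act_id'] at h1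
  have hR₀1 : 2 ^ n • R₀ = act W (incl K K Ω) P := by
    rw [hR₀, ← map_nsmul, hR1, hP]
  refine ⟨R₀, hR₀1, ?_⟩
  obtain ⟨d, hd⟩ : ∃ d : (Ω ≃ₐ[K] Ω) → Pt W Ω, ∀ σ, d σ = c n σ - (act W (rs K σ) R₀ - R₀) :=
    ⟨_, fun σ => rfl⟩
  have dmul : ∀ σ τ, d (σ * τ) = d σ + act W (rs K σ) (d τ) := by
    intro σ τ
    rw [hd, hd, hd]
    have e : act W (rs K (σ * τ)) R₀ = act W (rs K σ) (act W (rs K τ) R₀) := by
      rw [act_act]; rfl
    rw [(hc.coc n).mul, e, map_sub, map_sub]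
    abel
  have dF : ∀ τ : Ω' ≃ₐ[F] Ω', d (cF j τ) = 0 := by
    intro τ
    apply hinj
    rw [hd, map_zero, map_sub, map_sub, act_act, hJF, ← act_act, hJR]
    exact sub_eq_zero.2 (hR2 τ)
  have dpow : ∀ σ, 2 ^ n • d σ = 0 := by
    intro σ
    rw [hd]
    have e2 : act W (rs K σ) (act W (incl K K Ω) P) = act W (incl K K Ω) P := by
      have e : (rs K σ).comp (incl K K Ω) = incl K K Ω := AlgHom.ext fun x => σ.commutes x
      rw [act_act, e]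
    rw [smul_sub, smul_sub, pow_kill hc.zero hc.two n σ, ← map_nsmul, hR₀1, e2, sub_self,
      sub_self]
  have dfix : ∀ (σ : Ω ≃ₐ[K] Ω) (τ : Ω' ≃ₐ[F] Ω'), act W (rs K (cF j τ)) (d σ) = d σ := by
    intro σ τ
    obtain ⟨τ', hτ'⟩ := exists_conj hN ((j.symm.trans σ).trans j) τ
    have e1 : cF j τ * σ = σ * cF j τ' := by
      apply AlgEquiv.ext
      intro x
      have h2 : j (σ (j.symm (τ' (j x)))) = τ (j (σ (j.symm (j x)))) := hτ' (j x)
      show j.symm (τ (j (σ x))) = σ (j.symm (τ' (j x)))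
      rw [AlgEquiv.symm_apply_apply] at h2
      rw [← h2, AlgEquiv.symm_apply_apply]
    have e2 := dmul (cF j τ) σ
    rw [e1, dmul, dF, dF, map_zero, add_zero, zero_add] at e2
    exact e2.symm
  intro σ
  have hz : d σ = 0 := by
    apply hinj
    rw [map_zero]
    apply htor n
    · rw [← map_nsmul, dpow, map_zero]
    · intro τ
      have e := congrArg (act W (j : Ω →ₐ[K] Ω')) (dfix σ τ)
      rwa [act_act, hJF, ← act_act] at e
  rw [hd] at hz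
  exact sub_eq_zero.1 hz

end

end Pool.Agent.Q126.SB
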