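import Pool.Agent.Q126.SB.Sel

/-!
The Tate conjecture at 2 over `k` implies the Selmer group conjecture at 2 over `k(t)`, for curves
without points of order two over `k'(t)`.
-/

set_option autoImplicit false
set_option linter.all false

open Polynomial IsDedekindDomain
open scoped Classical

namespace Pool.Agent.Q126.SB

open Pool.Agent.TH115.GD

/-- The Selmer group conjecture at the prime 2 for the elliptic curve `W` over `K = k(t)`: the map
`W(K) ⊗ ℤ_2 → Sel(W, ℤ_2)` is surjective. If `c` is a continuous cocycle of `Gal(Sep K / K)` with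
values in the Tate module `T_2 W` which is locally trivial at all places of `K` (the closed points of
the projective line over `k`), then for every `n` there are a point `P` of `W(K)` and a point `R` with
`2 ^ n R = P` such that `c n σ = σ R - R` for all `σ`. -/
def SelmerAtTwo (k : Type) {K : Type} [Field k] [Field K] [Algebra k[X] K] [IsFractionRing k[X] K]
    (W : WeierstrassCurve K) : Prop :=
  ∀ c : ℕ → (Sep K ≃ₐ[K] Sep K) → Pt W (Sep K), IsTC W c → (∀ n, LocallyTrivial k W (c n)) →
    ∀ n, ∃ (P : Pt W K) (R : Pt W (Sep K)), 2 ^ n • R = act W (incl K K (Sep K)) P ∧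
      ∀ σ, c n σ = act W (rs K σ) R - R

section

variable {k k' K F : Type} [Field k] [Field k'] [Algebra k k'] [Field K]
    [Algebra k[X] K] [IsFractionRing k[X] K] [Field F] [Algebra k'[X] F] [IsFractionRing k'[X] F]
    [Algebra K F]

/-- **The Tate conjecture implies the Selmer group conjecture.** -/
theorem selmer_of_tate (hT : IsTower k k' K F) (W : WeierstrassCurve K)
    (htor : ∀ (n : ℕ) (R : Pt W (Sep F)), 2 ^ n • R = 0 →
      (∀ σ : Sep F ≃ₐ[F] Sep F, act W (rs K σ) R = R) → R = 0)
    (h : TateAtTwo (F := F) k' W) : SelmerAtTwo k W := by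
  intro c hc hloc n
  haveI := hT.sep
  haveI : IsSepClosure K (Sep F) := sepKΩ hT.map
  haveI : Algebra.IsSeparable K (Sep F) := IsSepClosure.separable
  haveI : IsGalois K (Sep F) := inferInstance
  have j : Sep K ≃ₐ[K] Sep F := IsSepClosure.equiv K (Sep K) (Sep F)
  have h1 : IsTC (F := F) W (fun n => resG W j (c n)) := res_tc W j hc
  have h2 : ∀ n, LocallyTrivial k' W (resG W j (c n)) := fun n =>
    res_loc (K₀ := K) hT W j (hc.coc n) (hloc n)
  have h3 : IsInv (F := F) W (fun n => resG W j (c n)) := res_inv W j hc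
  obtain ⟨P, R, hR1, hR2⟩ := h _ h1 h2 h3 n
  obtain ⟨R₀, h4, h5⟩ := back W j (preserves hT.map) htor hc n hR1 hR2
  exact ⟨P, R₀, h4, h5⟩

end

end Pool.Agent.Q126.SB
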