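import Pool.Agent.Y141.SH.Loc
import Pool.Agent.Q126.SB.Core

/-!
The Tate conjecture at 2 over `k` implies the Selmer group conjecture at 2 over `k(t)`.
-/

set_option autoImplicit false
set_option linter.all false

open Polynomial IsDedekindDomain
open scoped Classical

namespace Pool.Agent.Q126.SB

open Pool.Agent.TH115.GD
open Pool.Agent.Y160.SH (cj cj_mul cont_cj)

section transfer

variable {K F Ω L Ω' E Ω'' : Type} [Field K] [Field F] [Field Ω] [Field L] [Field Ω']
  [Field E] [Field Ω''] [Algebra K F] [Algebra F Ω] [Algebra K Ω] [IsScalarTower K F Ω]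
  [IsGalois F Ω]
  [Algebra K L] [Algebra F L] [IsScalarTower K F L]
  [Algebra L Ω'] [Algebra K Ω'] [Algebra F Ω'] [IsScalarTower K L Ω'] [IsScalarTower F L Ω']
  [IsScalarTower K F Ω']
  [Algebra K E] [Algebra E Ω''] [Algebra K Ω''] [Algebra F Ω''] [Algebra F E]
  [IsScalarTower K E Ω''] [IsScalarTower K F Ω''] [IsScalarTower F E Ω'']
  {W : WeierstrassCurve K}

/-- A locally trivial cocycle is locally trivial over extensions of the completion, for any
embedding. -/
theorem transfer0 {c : (Ω ≃ₐ[F] Ω) → Pt W Ω} (hc : IsCoc W c)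
    (hloc : LocTriv W L Ω' c) (κ : Ω' →ₐ[F] Ω'')
    (hκ : ∀ τ : Ω'' ≃ₐ[E] Ω'', ∃ τ' : Ω' ≃ₐ[L] Ω', ∀ x, τ (κ x) = κ (τ' x))
    (e : Ω →ₐ[F] Ω'') :
    ∃ P : Pt W Ω'', ∀ (τ : Ω'' ≃ₐ[E] Ω'') (σ : Ω ≃ₐ[F] Ω), (∀ x, τ (e x) = e (σ x)) →
        act W (e.restrictScalars K) (c σ) = act W (rs K τ) P - P := by
  obtain ⟨ι, P0, hP⟩ := hloc
  set ι' : Ω →ₐ[K] Ω' := ι.restrictScalars K with hι'
  set κ' : Ω' →ₐ[K] Ω'' := κ.restrictScalars K with hκ'
  obtain ⟨ρ, hρ⟩ := exists_aut (κ.comp ι) e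
  refine ⟨act W κ' P0 + act W (κ'.comp ι') (c ρ), fun τ σ h => ?_⟩
  obtain ⟨τ', hτ'⟩ := hκ τ
  have hconj : ∀ x, τ' (ι x) = ι ((ρ * σ * ρ⁻¹) x) := by
    intro x
    apply κ.injective
    show κ (τ' (ι x)) = κ (ι ((ρ * σ * ρ⁻¹) x))
    rw [← hτ']
    have e1 : κ (ι x) = e (ρ⁻¹ x) := by
      rw [hρ, ← AlgEquiv.mul_apply, mul_inv_cancel]; rfl
    rw [e1, h, hρ]
    rfl
  have h1 := hP τ' _ hconj
  have h2 : c (ρ * σ * ρ⁻¹ * ρ) = c (ρ * σ * ρ⁻¹) + act W (rs K (ρ * σ * ρ⁻¹)) (c ρ) :=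
    hc.mul _ _
  have h3 : ρ * σ * ρ⁻¹ * ρ = ρ * σ := by group
  rw [h3, hc.mul] at h2
  have h4 : act W (rs K ρ) (c σ) =
      c (ρ * σ * ρ⁻¹) + act W (rs K (ρ * σ * ρ⁻¹)) (c ρ) - c ρ := by
    rw [← h2]; abel
  have ec : act W (e.restrictScalars K) (c σ) = act W (κ'.comp ι') (act W (rs K ρ) (c σ)) := by
    have e6 : (κ'.comp ι').comp (rs K ρ) = e.restrictScalars K := AlgHom.ext fun x => (hρ x).symm
    rw [act_act, e6]
  have e5 : act W (κ'.comp ι') (c (ρ * σ * ρ⁻¹)) =
      act W (rs K τ) (act W κ' P0) - act W κ' P0 := by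
    have e6 : (κ').comp (rs K τ') = (rs K τ).comp κ' := AlgHom.ext fun x => (hτ' x).symm
    rw [← act_act, h1, map_sub, act_act, act_act, e6]
  have e7 : act W (κ'.comp ι') (act W (rs K (ρ * σ * ρ⁻¹)) (c ρ)) =
      act W (rs K τ) (act W (κ'.comp ι') (c ρ)) := by
    have e8 : (κ'.comp ι').comp (rs K (ρ * σ * ρ⁻¹)) = (rs K τ).comp (κ'.comp ι') := by
      refine AlgHom.ext fun x => ?_
      show κ (ι ((ρ * σ * ρ⁻¹) x)) = τ (κ (ι x))
      rw [hτ', hconj]
    rw [act_act, act_act, e8]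
  rw [ec, h4, map_sub, map_add, e5, e7, map_add]
  abel

end transfer

section maps

variable {k k' K F : Type} [Field k] [Field k'] [Algebra k k'] [Field K]
    [Algebra k[X] K] [IsFractionRing k[X] K] [Field F] [Algebra k'[X] F] [IsFractionRing k'[X] F]
    [Algebra K F]

/-- The map of the completions at infinity of `k(t)` and `k'(t)`. -/
theorem exists_map_inf (hT : IsTower k k' K F) :
    ∃ j : CompInf k K →+* CompInf k' F,
      ∀ x : K, j (algebraMap K (CompInf k K) x) = algebraMap K (CompInf k' F) x := by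
  letI : Algebra k[X] k'[X] := (mapRingHom (algebraMap k k')).toAlgebra
  let φ : AtInf K →+* AtInf F := algebraMap K F
  letI : Algebra (AtInf K) (AtInf F) := φ.toAlgebra
  letI : Algebra k[X] (AtInf F) := (φ.comp (algebraMap k[X] (AtInf K))).toAlgebra
  haveI : IsScalarTower k[X] (AtInf K) (AtInf F) := IsScalarTower.of_algebraMap_eq fun x => rfl
  have hmap : ∀ p : k[X], algebraMap K F (infMap k K p) =
      infMap k' F (p.map (algebraMap k k')) := by
    intro p
    have hX : algebraMap K F (algebraMap k[X] K X) = algebraMap k'[X] F X := by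
      rw [hT.map, map_X]
    have hC : ∀ c : k, algebraMap K F (algebraMap k[X] K (C c)) =
        algebraMap k'[X] F (C (algebraMap k k' c)) := fun c => by rw [hT.map, map_C]
    unfold infMap
    rw [coe_eval₂RingHom, coe_eval₂RingHom, hom_eval₂, eval₂_map, map_inv₀, hX]
    congr 1
    exact RingHom.ext fun c => hC c
  haveI : IsScalarTower k[X] k'[X] (AtInf F) := IsScalarTower.of_algebraMap_eq fun x => hmap x
  haveI : FaithfulSMul k[X] k'[X] := (faithfulSMul_iff_algebraMap_injective _ _).2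
    (Polynomial.map_injective _ (algebraMap k k').injective)
  haveI : Module.IsTorsionFree k[X] k'[X] := inferInstance
  haveI := hT.sep
  haveI : Algebra.IsIntegral k k' := inferInstance
  haveI : Algebra.IsIntegral k[X] k'[X] := ⟨Pool.Agent.Y141.SH.poly_integral⟩
  let w : HeightOneSpectrum k'[X] := pl 0
  let v : HeightOneSpectrum k[X] := pl 0
  have hunder : v.asIdeal = w.asIdeal.under k[X] := by
    ext p
    rw [Ideal.mem_comap]
    show p ∈ Ideal.span {X - C 0} ↔ (p.map (algebraMap k k')) ∈ Ideal.span {X - C 0}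
    rw [Ideal.mem_span_singleton, Ideal.mem_span_singleton, C_0, C_0, sub_zero, sub_zero,
      X_dvd_iff, X_dvd_iff, coeff_map, _root_.map_eq_zero]
  haveI hlo : w.asIdeal.LiesOver v.asIdeal := ⟨hunder⟩
  have hval : ∀ x : AtInf K, v.valuation (AtInf K) x ^ v.asIdeal.ramificationIdx' w.asIdeal =
      w.valuation (AtInf F) (algebraMap (AtInf K) (AtInf F) x) := fun x =>
    HeightOneSpectrum.valuation_liesOver (A := k[X]) (AtInf F) v w x
  have he : v.asIdeal.ramificationIdx' w.asIdeal ≠ 0 :=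
    Ideal.IsDedekindDomain.ramificationIdx'_ne_zero_of_liesOver w.asIdeal v.ne_bot
  obtain ⟨j, hj1, -, -⟩ := exists_compl_map v w (algebraMap (AtInf K) (AtInf F))
    (fun x hx => by rw [← hval]; exact pow_le_one₀ zero_le hx)
    (fun x hx => by rw [← hval]; exact pow_lt_one₀ zero_le hx he)
  exact ⟨j, fun x => hj1 x⟩

end maps

section loc

variable {K₀ k k' K F : Type} [Field K₀] [Field k] [Field k'] [Algebra k k'] [Field K]
    [Algebra k[X] K] [IsFractionRing k[X] K] [Field F] [Algebra k'[X] F] [IsFractionRing k'[X] F]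
    [Algebra K F] [Algebra K₀ K] [Algebra K₀ F] [IsScalarTower K₀ K F]

/-- the restriction of a cocycle over `K` to `F` -/
noncomputable def res (W : WeierstrassCurve K₀) (j : Sep K ≃ₐ[K] Sep F)
    (c : (Sep K ≃ₐ[K] Sep K) → Pt W (Sep K)) (σ : Sep F ≃ₐ[F] Sep F) : Pt W (Sep F) :=
  act W ((j : Sep K →ₐ[K] Sep F).restrictScalars K₀) (c (cF j σ))

instance towC (w : HeightOneSpectrum k'[X]) : IsScalarTower K₀ K (Comp k'[X] F w) :=
  IsScalarTower.of_algebraMap_eq fun x => by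
    show algebraMap F (Comp k'[X] F w) (algebraMap K₀ F x) =
      algebraMap F (Comp k'[X] F w) (algebraMap K F (algebraMap K₀ K x))
    rw [← IsScalarTower.algebraMap_apply K₀ K F]

instance towI : IsScalarTower K₀ K (CompInf k' F) :=
  IsScalarTower.of_algebraMap_eq fun x => by
    show algebraMap F (CompInf k' F) (algebraMap K₀ F x) =
      algebraMap F (CompInf k' F) (algebraMap K F (algebraMap K₀ K x))
    rw [← IsScalarTower.algebraMap_apply K₀ K F]

theorem res_loc (hT : IsTower k k' K F) (W : WeierstrassCurve K₀) (j : Sep K ≃ₐ[K] Sep F)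
    {c : (Sep K ≃ₐ[K] Sep K) → Pt W (Sep K)} (hc : IsCoc W c) (hloc : LocallyTrivial k W c) :
    LocallyTrivial k' W (res W j c) := by
  haveI : Algebra.IsSeparable F (Sep F) := IsSepClosure.separable
  constructor
  · intro w
    obtain ⟨v, j0, hj0⟩ := Pool.Agent.Y141.SH.exists_map hT w
    obtain ⟨κ, -, hκ⟩ := exists_kappa (F := K) (L := Comp k[X] K v) (Ω' := Sep (Comp k[X] K v))
      (E := Comp k'[X] F w) (Ω'' := Sep (Comp k'[X] F w)) j0 hj0
    let i : Sep F →ₐ[F] Sep (Comp k'[X] F w) := IsSepClosed.lift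
    let e : Sep K →ₐ[K] Sep (Comp k'[X] F w) := (i.restrictScalars K).comp (j : Sep K →ₐ[K] Sep F)
    obtain ⟨P, hP⟩ := transfer0 (K := K₀) (F := K) (Ω := Sep K) (L := Comp k[X] K v)
      (Ω' := Sep (Comp k[X] K v)) (E := Comp k'[X] F w) (Ω'' := Sep (Comp k'[X] F w)) hc
      (hloc.1 v) κ hκ e
    refine ⟨i, P, fun τ σ h => ?_⟩
    have h1 := hP τ (cF j σ) (fun x => by
      show τ (i (j x)) = i (j (j.symm (σ (j x))))
      rw [h, AlgEquiv.apply_symm_apply])
    rw [← h1]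
    unfold res
    rw [act_act]
    rfl
  · obtain ⟨j0, hj0⟩ := exists_map_inf hT
    obtain ⟨κ, -, hκ⟩ := exists_kappa (F := K) (L := CompInf k K) (Ω' := Sep (CompInf k K))
      (E := CompInf k' F) (Ω'' := Sep (CompInf k' F)) j0 hj0
    let i : Sep F →ₐ[F] Sep (CompInf k' F) := IsSepClosed.lift
    let e : Sep K →ₐ[K] Sep (CompInf k' F) := (i.restrictScalars K).comp (j : Sep K →ₐ[K] Sep F)
    obtain ⟨P, hP⟩ := transfer0 (K := K₀) (F := K) (Ω := Sep K) (L := CompInf k K)
      (Ω' := Sep (CompInf k K)) (E := CompInf k' F) (Ω'' := Sep (CompInf k' F)) hc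
      hloc.2 κ hκ e
    refine ⟨i, P, fun τ σ h => ?_⟩
    have h1 := hP τ (cF j σ) (fun x => by
      show τ (i (j x)) = i (j (j.symm (σ (j x))))
      rw [h, AlgEquiv.apply_symm_apply])
    rw [← h1]
    unfold res
    rw [act_act]
    rfl

end loc

end Pool.Agent.Q126.SB
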