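import Pool.Agent.Q126.SB.Tw

/-!
The tower `k(t) ⊂ k'(t)`, and the Selmer group conjecture at 2 over `k(t)` for inert twists and their
pull-backs.
-/

set_option autoImplicit false
set_option linter.all false

open Polynomial Module
open scoped Classical

namespace Pool.Agent.Q126.SB

open Pool.Agent.TH115.GD

section

variable (k K : Type) [Field k] [Field K] [Algebra k[X] K] [IsFractionRing k[X] K]

theorem exists_tower : ∃ (k' F : Type) (_ : Field k') (_ : Algebra k k') (_ : Field F)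
    (_ : Algebra k'[X] F) (_ : IsFractionRing k'[X] F) (_ : Algebra K F), IsTower k k' K F := by
  let k' := SeparableClosure k
  let F := FractionRing k'[X]
  let φ : k[X] →+* F := (algebraMap k'[X] F).comp (mapRingHom (algebraMap k k'))
  have hφ : Function.Injective φ :=
    (IsFractionRing.injective k'[X] F).comp (Polynomial.map_injective _ (algebraMap k k').injective)
  letI a : Algebra K F := (IsFractionRing.lift hφ).toAlgebra
  refine ⟨k', F, inferInstance, inferInstance, inferInstance, inferInstance, inferInstance, a, ?_⟩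
  exact ⟨inferInstance, inferInstance, fun p => IsFractionRing.lift_algebraMap hφ p⟩

end

section

variable {k K : Type} [Field k] [Field K] [Algebra k[X] K] [IsFractionRing k[X] K]

/-- **One field.** -/
theorem selmer_one (h2 : (2 : k) ≠ 0) (h3 : (3 : k) ≠ 0) {b₂ b₁ b₀ : k} {D : k[X]}
    (h : Irreducible (D.comp (-(cb b₂ b₁ b₀)))) (hs : D.Separable) (hm : 2 ≤ D.natDegree)
    {d : k} (hd : d ≠ 0) {l : List (k × k)} (hl : ∀ p ∈ l, p.1 ≠ 0)
    (hcrit : ∀ γ ∈ crit l, Irreducible (cb b₂ b₁ b₀ + C γ) ∧ (cb b₂ b₁ b₀ + C γ).Separable) :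
    SelmerAtTwo k (twC K b₂ b₁ b₀ (cq l) (C d * D.comp (cq l))) := by
  obtain ⟨k', F, i1, i2, i3, i4, i5, i6, hT⟩ := exists_tower k K
  exact selmer_pull hT h2 h3 h hs hm hd hl hcrit

/-- **All the extensions of degree prime to `3 m`.** -/
theorem selmer_ext {k₀ : Type} [Field k₀] [Algebra k₀ k] (h2 : (2 : k) ≠ 0) (h3 : (3 : k) ≠ 0)
    {b₂ b₁ b₀ : k₀} {D : k₀[X]} (h : Irreducible (D.comp (-(cb b₂ b₁ b₀)))) (hs : D.Separable)
    (hm : 2 ≤ D.natDegree) (hfin : FiniteDimensional k₀ (algebraicClosure k₀ k))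
    (hco : (finrank k₀ (algebraicClosure k₀ k)).Coprime (3 * D.natDegree))
    {d : k} (hd : d ≠ 0) {l : List (k × k)} (hl : ∀ p ∈ l, p.1 ≠ 0)
    (hcrit : ∀ γ ∈ crit l, Irreducible (cb (algebraMap k₀ k b₂) (algebraMap k₀ k b₁)
      (algebraMap k₀ k b₀) + C γ) ∧ (cb (algebraMap k₀ k b₂) (algebraMap k₀ k b₁)
      (algebraMap k₀ k b₀) + C γ).Separable) :
    SelmerAtTwo k (twC K (algebraMap k₀ k b₂) (algebraMap k₀ k b₁) (algebraMap k₀ k b₀) (cq l)
      (C d * (D.map (algebraMap k₀ k)).comp (cq l))) := by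
  have e : (cb b₂ b₁ b₀).map (algebraMap k₀ k) = cb (algebraMap k₀ k b₂) (algebraMap k₀ k b₁)
      (algebraMap k₀ k b₀) := by
    unfold cb
    simp
  have hdeg : (D.comp (-(cb b₂ b₁ b₀))).natDegree = 3 * D.natDegree := by
    rw [natDegree_comp, natDegree_neg, (cb_deg _ _ _).1, mul_comm]
  haveI := hfin
  have h4 := Pool.Agent.Q126.FD.irr_ext (L := k) h (by rw [hdeg]; exact hco)
  rw [Polynomial.map_comp, Polynomial.map_neg, e] at h4
  exact selmer_one h2 h3 h4 hs.map (by rw [natDegree_map]; exact hm) hd hl hcrit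

end

end Pool.Agent.Q126.SB
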