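import Pool.Agent.Q126.SB.Main
import Pool.Agent.Q126.FD.TwAll

/-!
The Selmer group conjecture at 2 for all the pull-backs, by composites of quadratic polynomials, of
inert twists.
-/

set_option autoImplicit false
set_option linter.all false

open Polynomial IsDedekindDomain Module
open scoped Classical

namespace Pool.Agent.Q126.SB

open Pool.Agent.TH115.GD

section

variable {k k' K F : Type} [Field k] [Field k'] [Algebra k k'] [Field K]
    [Algebra k[X] K] [IsFractionRing k[X] K] [Field F] [Algebra k'[X] F] [IsFractionRing k'[X] F]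
    [Algebra K F]

/-- No points of two-power order over `F`. -/
theorem tor_tw (hT : IsTower k k' K F) (h2 : (2 : k) ≠ 0) {b2 b1 b0 : k} {l : List (k × k)}
    (hder : derivative (cb b2 b1 b0) ≠ 0) (hl : ∀ p ∈ l, p.1 ≠ 0) {D : k[X]} (hD : D ≠ 0)
    (n : ℕ) (R : Pt (twC K b2 b1 b0 (cq l) D) (Sep F)) (hR : 2 ^ n • R = 0)
    (hf : ∀ σ : Sep F ≃ₐ[F] Sep F, act (twC K b2 b1 b0 (cq l) D) (rs K σ) R = R) : R = 0 := by
  have h2K : (2 : K) ≠ 0 := by
    have h3 : algebraMap k[X] K (C 2) ≠ 0 := by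
      rw [Ne, map_eq_zero_iff _ (IsFractionRing.injective k[X] K)]
      exact C_ne_zero.2 h2
    rwa [C_ofNat, map_ofNat] at h3
  have hΔ : (twC K b2 b1 b0 (cq l) D).Δ ≠ 0 := disc_twD h2 hder hl hD
  have hsep : (cubP (twC K b2 b1 b0 (cq l) D) K).Separable := cubP_sep rfl rfl hΔ
  obtain ⟨a, ha⟩ := IsSepClosed.exists_aeval_eq_zero (Sep F)
    (cubP (twC K b2 b1 b0 (cq l) D) K) (by
      rw [degree_eq_natDegree cubP_deg.2.ne_zero, cubP_deg.1]
      norm_num) hsep
  have hcuba : cub (twC K b2 b1 b0 (cq l) D) a = 0 := by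
    rw [← cubP_aeval (F := K), ha]
  obtain ⟨b, c, hC⟩ := exists_isC (W := twC K b2 b1 b0 (cq l) D) rfl rfl hΔ h2K hcuba
  exact no_pow hC (fun x => hnr_twD hT hl hD x) n R hR hf

/-- **One field.** -/
theorem selmer_pull {k' F : Type} [Field k'] [Algebra k k'] [Field F] [Algebra k'[X] F]
    [IsFractionRing k'[X] F] [Algebra K F] (hT : IsTower k k' K F) (h2 : (2 : k) ≠ 0)
    (h3 : (3 : k) ≠ 0) {b₂ b₁ b₀ : k} {D : k[X]}
    (h : Irreducible (D.comp (-(cb b₂ b₁ b₀)))) (hs : D.Separable) (hm : 2 ≤ D.natDegree)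
    {d : k} (hd : d ≠ 0) {l : List (k × k)} (hl : ∀ p ∈ l, p.1 ≠ 0)
    (hcrit : ∀ γ ∈ crit l, Irreducible (cb b₂ b₁ b₀ + C γ) ∧ (cb b₂ b₁ b₀ + C γ).Separable) :
    SelmerAtTwo k (twC K b₂ b₁ b₀ (cq l) (C d * D.comp (cq l))) := by
  have hder : derivative (cb b₂ b₁ b₀) ≠ 0 := by
    intro h0
    have h1 := congrArg (fun p : k[X] => p.coeff 2) h0
    rw [cb_der] at h1
    simp [coeff_X, coeff_C] at h1
    exact h3 h1
  have hD0 : D.comp (cq l) ≠ 0 := by
    intro h0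
    have h4 := congrArg natDegree h0
    rw [natDegree_comp, cq_deg l hl, natDegree_zero] at h4
    have h5 : 0 < 2 ^ l.length := pow_pos two_pos _
    rcases Nat.mul_eq_zero.1 h4 with h6 | h6 <;> omega
  exact selmer_of_tate hT _ (tor_tw hT h2 hder hl (mul_ne_zero (C_ne_zero.2 hd) hD0))
    (Pool.Agent.Q126.FD.tate_pull hT h2 h3 h hs hm hd hl hcrit)

end

end Pool.Agent.Q126.SB
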